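import Mathlib

/-!
# The value of the point-versus-interval greedy game

For every `β ≥ 0` the game in which RED picks a closed interval `[a, a + A]` inside `[0,1]`,
BLUE picks a point `p`, and the payoff to RED is `A` if `p` is outside and `-β A` if `p` is inside
the interval, has a value, and it is equal to `M(β) = max_{n ≥ 1} (n - 1 - β) / n ^ 2`.

BLUE's optimal strategy has the distribution function `F x = sup_k (k - V k ^ 2 / x) / (1 + β)`,
`V = M(β)`.
-/

namespace Pool.Agent.Results.MP_d7d923_pr.ValueFormula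

open MeasureTheory Set Filter Function

/-- RED's pure strategies: the pairs `(a, A)` with `0 ≤ a ≤ a + A ≤ 1`. -/
abbrev Red : Type := {z : ℝ × ℝ // 0 ≤ z.1 ∧ z.1 ≤ z.1 + z.2 ∧ z.1 + z.2 ≤ 1}

/-- BLUE's pure strategies: the points of `[0,1]`. -/
abbrev Blue : Type := {p : ℝ // 0 ≤ p ∧ p ≤ 1}

open scoped Classical in
/-- The payoff to RED: `-β A` if `p ∈ [a, a + A]` and `A` otherwise. -/
noncomputable def pay (β : ℝ) (z : Red) (p : Blue) : ℝ :=
  if p.1 ∈ Icc z.1.1 (z.1.1 + z.1.2) then -β * z.1.2 else z.1.2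

/-- The expected payoff when RED uses the mixed strategy `μ` and BLUE the mixed strategy `ν`. -/
noncomputable def expPay (β : ℝ) (μ : ProbabilityMeasure Red) (ν : ProbabilityMeasure Blue) : ℝ :=
  ∫ w, pay β w.1 w.2 ∂((μ : Measure Red).prod (ν : Measure Blue))

/-- The lower value `sup_μ inf_ν`. -/
noncomputable def lowerValue (β : ℝ) : ℝ := ⨆ μ, ⨅ ν, expPay β μ ν

/-- The upper value `inf_ν sup_μ`. -/
noncomputable def upperValue (β : ℝ) : ℝ := ⨅ ν, ⨆ μ, expPay β μ ν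

/-! ### The maximum `M(β)` -/

lemma exists_max (β : ℝ) (hβ : 0 ≤ β) :
    ∃ M : ℝ, 0 < M ∧ IsGreatest {x : ℝ | ∃ n : ℕ, 1 ≤ n ∧ x = ((n : ℝ) - 1 - β) / (n : ℝ) ^ 2} M := by
  obtain ⟨n0, hn0⟩ := exists_nat_gt (1 + β)
  have hn0' : (0 : ℝ) < n0 := by linarith
  set v0 : ℝ := ((n0 : ℝ) - 1 - β) / (n0 : ℝ) ^ 2 with hv0
  have hv0pos : 0 < v0 := div_pos (by linarith) (by positivity)
  obtain ⟨N, hN⟩ := exists_nat_gt (1 / v0)
  have hNpos : (0 : ℝ) < N := lt_trans (by positivity) hN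
  have h1 : ∀ n : ℕ, N ≤ n → ((n : ℝ) - 1 - β) / (n : ℝ) ^ 2 < v0 := by
    intro n hn
    have hn' : (N : ℝ) ≤ n := by exact_mod_cast hn
    have hnpos : (0 : ℝ) < n := lt_of_lt_of_le hNpos hn'
    rw [div_lt_iff₀ (by positivity)]
    have : 1 < v0 * n := by
      have := (div_lt_iff₀ hv0pos).1 (lt_of_lt_of_le hN hn')
      linarith
    nlinarith
  have hn01 : 1 ≤ n0 := by
    have : (0 : ℝ) < n0 := hn0'
    exact_mod_cast this
  have hn0N : n0 < N := by
    by_contra h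
    exact absurd (h1 n0 (not_lt.1 h)) (lt_irrefl _)
  obtain ⟨m, hm, hmax⟩ := Finset.exists_max_image (Finset.Ico 1 N)
    (fun n : ℕ => ((n : ℝ) - 1 - β) / (n : ℝ) ^ 2) ⟨n0, Finset.mem_Ico.2 ⟨hn01, hn0N⟩⟩
  have hmv : v0 ≤ ((m : ℝ) - 1 - β) / (m : ℝ) ^ 2 := hmax n0 (Finset.mem_Ico.2 ⟨hn01, hn0N⟩)
  refine ⟨((m : ℝ) - 1 - β) / (m : ℝ) ^ 2, lt_of_lt_of_le hv0pos hmv,
    ⟨m, (Finset.mem_Ico.1 hm).1, rfl⟩, ?_⟩
  rintro x ⟨n, hn, rfl⟩
  rcases lt_or_ge n N with h | h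
  · exact hmax n (Finset.mem_Ico.2 ⟨hn, h⟩)
  · exact ((h1 n h).le).trans hmv

/-! ### BLUE's distribution function -/

/-- BLUE's distribution function inside `(0,1)`. -/
noncomputable def G (β V x : ℝ) : ℝ := ⨆ k : ℕ, ((k : ℝ) - V * (k : ℝ) ^ 2 / x) / (1 + β)

open scoped Classical in
/-- BLUE's distribution function. -/
noncomputable def F (β V x : ℝ) : ℝ := if x ≤ 0 then 0 else if 1 ≤ x then 1 else G β V x

section
variable {β V : ℝ}

lemma term_le_one (hβ : 0 ≤ β) (hV : 0 < V) (hM : ∀ k : ℕ, (k : ℝ) - V * (k : ℝ) ^ 2 ≤ 1 + β)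
    {x : ℝ} (hx : 0 < x) (hx1 : x ≤ 1) (k : ℕ) :
    ((k : ℝ) - V * (k : ℝ) ^ 2 / x) / (1 + β) ≤ 1 := by
  rw [div_le_one (by linarith)]
  have h : V * (k : ℝ) ^ 2 ≤ V * (k : ℝ) ^ 2 / x := by
    rw [le_div_iff₀ hx]
    exact mul_le_of_le_one_right (by positivity) hx1
  linarith [hM k]

lemma bdd_G (hβ : 0 ≤ β) (hV : 0 < V) (hM : ∀ k : ℕ, (k : ℝ) - V * (k : ℝ) ^ 2 ≤ 1 + β)
    {x : ℝ} (hx : 0 < x) (hx1 : x ≤ 1) :
    BddAbove (range fun k : ℕ => ((k : ℝ) - V * (k : ℝ) ^ 2 / x) / (1 + β)) := by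
  refine ⟨1, ?_⟩
  rintro _ ⟨k, rfl⟩
  exact term_le_one hβ hV hM hx hx1 k

lemma G_nonneg (hβ : 0 ≤ β) (hV : 0 < V) (hM : ∀ k : ℕ, (k : ℝ) - V * (k : ℝ) ^ 2 ≤ 1 + β)
    {x : ℝ} (hx : 0 < x) (hx1 : x ≤ 1) : 0 ≤ G β V x := by
  have := le_ciSup (bdd_G hβ hV hM hx hx1) 0
  simpa [G] using this

lemma G_le_one (hβ : 0 ≤ β) (hV : 0 < V) (hM : ∀ k : ℕ, (k : ℝ) - V * (k : ℝ) ^ 2 ≤ 1 + β)
    {x : ℝ} (hx : 0 < x) (hx1 : x ≤ 1) : G β V x ≤ 1 :=
  ciSup_le fun k => term_le_one hβ hV hM hx hx1 k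

lemma F_mono (hβ : 0 ≤ β) (hV : 0 < V) (hM : ∀ k : ℕ, (k : ℝ) - V * (k : ℝ) ^ 2 ≤ 1 + β) :
    Monotone (F β V) := by
  intro x y hxy
  unfold F
  by_cases hx0 : x ≤ 0
  · rw [if_pos hx0]
    by_cases hy0 : y ≤ 0
    · rw [if_pos hy0]
    · rw [if_neg hy0]
      by_cases hy1 : 1 ≤ y
      · rw [if_pos hy1]; norm_num
      · rw [if_neg hy1]
        exact G_nonneg hβ hV hM (not_le.1 hy0) (not_le.1 hy1).le
  · have hy0 : ¬ y ≤ 0 := fun h => hx0 (hxy.trans h)
    rw [if_neg hx0, if_neg hy0]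
    by_cases hx1 : 1 ≤ x
    · rw [if_pos hx1, if_pos (hx1.trans hxy)]
    · rw [if_neg hx1]
      by_cases hy1 : 1 ≤ y
      · rw [if_pos hy1]
        exact G_le_one hβ hV hM (not_le.1 hx0) (not_le.1 hx1).le
      · rw [if_neg hy1]
        refine ciSup_mono (bdd_G hβ hV hM (not_le.1 hy0) (not_le.1 hy1).le) fun k => ?_
        have h : V * (k : ℝ) ^ 2 / y ≤ V * (k : ℝ) ^ 2 / x :=
          div_le_div_of_nonneg_left (by positivity) (not_le.1 hx0) hxy
        have h1 : (0 : ℝ) < 1 + β := by linarith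
        gcongr

lemma key_ineq (hV : 0 < V) {a s : ℝ} (ha : 0 < a) (hs : 0 < s) (k : ℝ) :
    (k - V * k ^ 2 / a) + (1 - V / s) ≤ (k + 1) - V * (k + 1) ^ 2 / (a + s) := by
  have h : (k + 1) ^ 2 / (a + s) ≤ k ^ 2 / a + 1 / s := by
    rw [div_add_div _ _ ha.ne' hs.ne', div_le_div_iff₀ (by positivity) (by positivity)]
    nlinarith [sq_nonneg (k * s - a)]
  have h2 : V * ((k + 1) ^ 2 / (a + s)) ≤ V * (k ^ 2 / a + 1 / s) :=
    mul_le_mul_of_nonneg_left h hV.le
  have e1 : V * (k + 1) ^ 2 / (a + s) = V * ((k + 1) ^ 2 / (a + s)) := by ring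
  have e2 : V * k ^ 2 / a + V / s = V * (k ^ 2 / a + 1 / s) := by ring
  linarith

lemma F_super (hβ : 0 ≤ β) (hV : 0 < V) (hM : ∀ k : ℕ, (k : ℝ) - V * (k : ℝ) ^ 2 ≤ 1 + β)
    {a s : ℝ} (ha : 0 ≤ a) (hs : 0 < s) (has : a + s ≤ 1) :
    F β V a + (1 - V / s) / (1 + β) ≤ F β V (a + s) := by
  have h1 : (0 : ℝ) < 1 + β := by linarith
  have hpos : 0 < a + s := by linarith
  -- lower bound for `F (a + s)`
  have hlow : ∀ k : ℕ, ((k : ℝ) - V * (k : ℝ) ^ 2 / (a + s)) / (1 + β) ≤ F β V (a + s) := by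
    intro k
    unfold F
    rw [if_neg (not_le.2 hpos)]
    by_cases h : 1 ≤ a + s
    · rw [if_pos h]
      exact term_le_one hβ hV hM hpos has k
    · rw [if_neg h]
      exact le_ciSup (bdd_G hβ hV hM hpos has) k
  rcases ha.eq_or_lt with rfl | ha'
  · have e : F β V 0 = 0 := by simp [F]
    rw [e, zero_add, zero_add]
    have := hlow 1
    simpa using this
  · have ha1 : ¬ 1 ≤ a := by linarith
    have e : F β V a = G β V a := by
      unfold F
      rw [if_neg (not_le.2 ha'), if_neg ha1]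
    rw [e]
    have : G β V a ≤ F β V (a + s) - (1 - V / s) / (1 + β) := by
      refine ciSup_le fun k => ?_
      have h2 := hlow (k + 1)
      have h3 := key_ineq hV ha' hs (k : ℝ)
      have h4 : ((k : ℝ) - V * (k : ℝ) ^ 2 / a) / (1 + β) + (1 - V / s) / (1 + β)
          ≤ ((k : ℝ) + 1 - V * ((k : ℝ) + 1) ^ 2 / (a + s)) / (1 + β) := by
        rw [← add_div]
        exact div_le_div_of_nonneg_right h3 h1.le
      push_cast at h2
      linarith
    linarith

end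

/-- BLUE's optimal measure satisfies the covering inequality. -/
lemma exists_blue {β V : ℝ} (hβ : 0 ≤ β) (hV : 0 < V)
    (hM : ∀ k : ℕ, (k : ℝ) - V * (k : ℝ) ^ 2 ≤ 1 + β) :
    ∃ ν : ProbabilityMeasure Blue, ∀ z : Red, 0 < z.1.2 →
      (1 - V / z.1.2) / (1 + β) ≤
        (ν : Measure Blue).real {p : Blue | p.1 ∈ Icc z.1.1 (z.1.1 + z.1.2)} := by
  have hmono := F_mono (β := β) (V := V) hβ hV hM
  set S : StieltjesFunction ℝ := hmono.stieltjesFunction with hS
  have hSx : ∀ x, S x = rightLim (F β V) x := fun x => rfl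
  have hge : ∀ x, F β V x ≤ S x := fun x => by
    rw [hSx]; exact hmono.le_rightLim le_rfl
  have hle : ∀ x, leftLim S x ≤ F β V x := by
    intro x
    have : leftLim S x = sSup (S '' Iio x) := S.mono.leftLim_eq_sSup
    rw [this]
    refine csSup_le ((nonempty_Iio).image _) ?_
    rintro _ ⟨y, hy, rfl⟩
    rw [hSx]
    exact hmono.rightLim_le hy
  have hIcc : MeasurableSet {p : ℝ | 0 ≤ p ∧ p ≤ 1} := measurableSet_Icc
  have hemb : MeasurableEmbedding (Subtype.val : Blue → ℝ) := MeasurableEmbedding.subtype_coe hIcc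
  set ν : Measure Blue := Measure.comap Subtype.val S.measure with hν
  have hνapp : ∀ C : Set ℝ, C ⊆ Icc 0 1 →
      ν {p : Blue | p.1 ∈ C} = S.measure C := by
    intro C hC
    rw [hν, hemb.comap_apply]
    congr 1
    ext x
    constructor
    · rintro ⟨p, hp, rfl⟩; exact hp
    · intro hx
      exact ⟨⟨x, hC hx⟩, hx, rfl⟩
  have hF0 : F β V 0 = 0 := by simp [F]
  have hFm1 : F β V (-1) = 0 := by simp [F]
  have hF1 : F β V 1 = 1 := by simp [F]
  have hF2 : F β V 2 = 1 := by norm_num [F]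
  have hl0 : leftLim S 0 = 0 := by
    apply le_antisymm
    · exact (hle 0).trans hF0.le
    · have h1 : S (-1) ≤ leftLim S 0 := S.mono.le_leftLim (by norm_num)
      have h2 := hge (-1)
      rw [hFm1] at h2
      exact h2.trans h1
  have hS1 : S 1 = 1 := by
    apply le_antisymm
    · rw [hSx]
      exact (hmono.rightLim_le (by norm_num : (1 : ℝ) < 2)).trans hF2.le
    · have := hge 1
      rwa [hF1] at this
  have hνuniv : ν univ = 1 := by
    have h := hνapp (Icc 0 1) le_rfl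
    have e : {p : Blue | p.1 ∈ Icc (0 : ℝ) 1} = univ := by
      ext p; simpa using p.2
    rw [e] at h
    rw [h, StieltjesFunction.measure_Icc, hS1, hl0]
    simp
  have : IsProbabilityMeasure ν := ⟨hνuniv⟩
  refine ⟨⟨ν, inferInstance⟩, fun z hz => ?_⟩
  have hsub : Icc z.1.1 (z.1.1 + z.1.2) ⊆ Icc 0 1 := Icc_subset_Icc z.2.1 z.2.2.2
  have h1 := hνapp _ hsub
  have h2 : (ν : Measure Blue).real {p : Blue | p.1 ∈ Icc z.1.1 (z.1.1 + z.1.2)}
      = (ENNReal.ofReal (S (z.1.1 + z.1.2) - leftLim S z.1.1)).toReal := by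
    rw [Measure.real, h1, StieltjesFunction.measure_Icc]
  have h3 : F β V (z.1.1 + z.1.2) - F β V z.1.1 ≤ S (z.1.1 + z.1.2) - leftLim S z.1.1 := by
    have := hge (z.1.1 + z.1.2)
    have := hle z.1.1
    linarith
  have h4 := F_super hβ hV hM z.2.1 hz z.2.2.2
  change _ ≤ ν.real _
  rw [h2]
  refine le_trans ?_ (le_trans h3 ?_)
  · linarith
  · exact (ENNReal.toReal_ofReal_eq_iff.2 (by
      have : F β V z.1.1 ≤ F β V (z.1.1 + z.1.2) := hmono (by linarith [z.2.2.1])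
      linarith)).ge

/-! ### Measurability and boundedness of the payoff -/

lemma measurable_pay (β : ℝ) : Measurable fun w : Red × Blue => pay β w.1 w.2 := by
  unfold pay
  refine Measurable.ite ?_ ?_ ?_
  · have h1 : Measurable fun w : Red × Blue => w.2.1 := measurable_subtype_coe.comp measurable_snd
    have h2 : Measurable fun w : Red × Blue => w.1.1.1 :=
      measurable_fst.comp (measurable_subtype_coe.comp measurable_fst)
    have h3 : Measurable fun w : Red × Blue => w.1.1.2 :=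
      measurable_snd.comp (measurable_subtype_coe.comp measurable_fst)
    exact (measurableSet_le h2 h1).inter (measurableSet_le h1 (h2.add h3))
  · exact (measurable_snd.comp (measurable_subtype_coe.comp measurable_fst)).const_mul _
  · exact measurable_snd.comp (measurable_subtype_coe.comp measurable_fst)

lemma pay_bound {β : ℝ} (hβ : 0 ≤ β) (z : Red) (p : Blue) : |pay β z p| ≤ 1 + β := by
  have hA0 : 0 ≤ z.1.2 := by linarith [z.2.2.1]
  have hA1 : z.1.2 ≤ 1 := by linarith [z.2.2.2, z.2.1]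
  unfold pay
  split_ifs
  · rw [abs_mul, abs_neg, abs_of_nonneg hβ, abs_of_nonneg hA0]
    nlinarith
  · rw [abs_of_nonneg hA0]; linarith

lemma integrable_pay {β : ℝ} (hβ : 0 ≤ β) (ρ : Measure (Red × Blue)) [IsFiniteMeasure ρ] :
    Integrable (fun w : Red × Blue => pay β w.1 w.2) ρ :=
  Integrable.of_bound (measurable_pay β).aestronglyMeasurable (1 + β)
    (Filter.Eventually.of_forall fun w => by
      rw [Real.norm_eq_abs]; exact pay_bound hβ w.1 w.2)

lemma inner_eq (β : ℝ) (z : Red) (ν : Measure Blue) [IsProbabilityMeasure ν] :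
    ∫ p, pay β z p ∂ν
      = z.1.2 - (1 + β) * z.1.2 * ν.real {p : Blue | p.1 ∈ Icc z.1.1 (z.1.1 + z.1.2)} := by
  have hm : MeasurableSet {p : Blue | p.1 ∈ Icc z.1.1 (z.1.1 + z.1.2)} :=
    measurable_subtype_coe measurableSet_Icc
  have e : (fun p : Blue => pay β z p) = fun p => z.1.2 +
      ({p : Blue | p.1 ∈ Icc z.1.1 (z.1.1 + z.1.2)}).indicator
        (fun _ => -((1 + β) * z.1.2)) p := by
    funext p
    by_cases hp : p.1 ∈ Icc z.1.1 (z.1.1 + z.1.2)
    · rw [indicator_of_mem (show p ∈ {p : Blue | p.1 ∈ Icc z.1.1 (z.1.1 + z.1.2)} from hp)]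
      unfold pay
      rw [if_pos hp]; ring
    · rw [indicator_of_notMem (show p ∉ {p : Blue | p.1 ∈ Icc z.1.1 (z.1.1 + z.1.2)} from hp)]
      unfold pay
      rw [if_neg hp]; ring
  rw [e, integral_add (integrable_const _) ((integrable_const _).indicator hm),
    integral_indicator_const _ hm]
  simp
  ring

lemma expPay_eq {β : ℝ} (hβ : 0 ≤ β) (μ : ProbabilityMeasure Red) (ν : ProbabilityMeasure Blue) :
    expPay β μ ν = ∫ z : Red, (z.1.2 - (1 + β) * z.1.2 *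
      (ν : Measure Blue).real {p : Blue | p.1 ∈ Icc z.1.1 (z.1.1 + z.1.2)}) ∂(μ : Measure Red) := by
  unfold expPay
  rw [integral_prod _ (integrable_pay hβ _)]
  refine integral_congr_ae (Filter.Eventually.of_forall fun z => ?_)
  exact inner_eq β z _

lemma expPay_bound {β : ℝ} (hβ : 0 ≤ β) (μ : ProbabilityMeasure Red)
    (ν : ProbabilityMeasure Blue) : |expPay β μ ν| ≤ 1 + β := by
  have := norm_integral_le_of_norm_le_const (μ := (μ : Measure Red).prod (ν : Measure Blue))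
    (f := fun w : Red × Blue => pay β w.1 w.2) (C := 1 + β)
    (Filter.Eventually.of_forall fun w => by
      rw [Real.norm_eq_abs]; exact pay_bound hβ w.1 w.2)
  simpa [expPay] using this

/-- BLUE can hold RED to at most `V`. -/
lemma blue_guarantee {β V : ℝ} (hβ : 0 ≤ β) (hV : 0 < V)
    (hM : ∀ k : ℕ, (k : ℝ) - V * (k : ℝ) ^ 2 ≤ 1 + β) :
    ∃ ν : ProbabilityMeasure Blue, ∀ μ : ProbabilityMeasure Red, expPay β μ ν ≤ V := by
  obtain ⟨ν, hν⟩ := exists_blue hβ hV hM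
  refine ⟨ν, fun μ => ?_⟩
  rw [expPay_eq hβ]
  have hpt : ∀ z : Red, z.1.2 - (1 + β) * z.1.2 *
      (ν : Measure Blue).real {p : Blue | p.1 ∈ Icc z.1.1 (z.1.1 + z.1.2)} ≤ V := by
    intro z
    have hA0 : 0 ≤ z.1.2 := by linarith [z.2.2.1]
    rcases hA0.eq_or_lt with h | h
    · rw [← h]; simpa using hV.le
    · have h1 := hν z h
      have hb : (0 : ℝ) < 1 + β := by linarith
      have h2 : (1 - V / z.1.2) ≤ (1 + β) *
          (ν : Measure Blue).real {p : Blue | p.1 ∈ Icc z.1.1 (z.1.1 + z.1.2)} := by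
        rw [div_le_iff₀ hb] at h1
        linarith
      have h3 : z.1.2 * (1 - V / z.1.2) ≤ z.1.2 * ((1 + β) *
          (ν : Measure Blue).real {p : Blue | p.1 ∈ Icc z.1.1 (z.1.1 + z.1.2)}) :=
        mul_le_mul_of_nonneg_left h2 h.le
      have h4 : z.1.2 * (1 - V / z.1.2) = z.1.2 - V := by
        field_simp
      linarith
  have hint : Integrable (fun z : Red => z.1.2 - (1 + β) * z.1.2 *
      (ν : Measure Blue).real {p : Blue | p.1 ∈ Icc z.1.1 (z.1.1 + z.1.2)})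
      (μ : Measure Red) := by
    have := (integrable_pay hβ ((μ : Measure Red).prod (ν : Measure Blue))).integral_prod_left
    refine this.congr (Filter.Eventually.of_forall fun z => ?_)
    exact inner_eq β z _
  calc _ ≤ ∫ _ : Red, V ∂(μ : Measure Red) := integral_mono hint (integrable_const _) hpt
    _ = V := by simp

/-- RED can guarantee `(1 - 2 δ) (n - 1 - β) / n ^ 2`. -/
lemma red_guarantee {β : ℝ} (hβ : 0 ≤ β) {n : ℕ} (hn : 1 ≤ n) {δ : ℝ} (hδ : 0 < δ)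
    (hδ2 : δ < 1 / 2) :
    ∃ μ : ProbabilityMeasure Red, ∀ ν : ProbabilityMeasure Blue,
      (1 - 2 * δ) * (((n : ℝ) - 1 - β) / (n : ℝ) ^ 2) ≤ expPay β μ ν := by
  have hnpos : (0 : ℝ) < n := by exact_mod_cast hn
  have hzprop : ∀ i : Fin n, 0 ≤ ((i : ℝ) + δ) / n ∧
      ((i : ℝ) + δ) / n ≤ ((i : ℝ) + δ) / n + (1 - 2 * δ) / n ∧
      ((i : ℝ) + δ) / n + (1 - 2 * δ) / n ≤ 1 := by
    intro i
    have h0 : (0 : ℝ) ≤ (i : ℕ) := Nat.cast_nonneg _
    have h1 : ((i : ℕ) : ℝ) + 1 ≤ n := by exact_mod_cast i.2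
    refine ⟨by positivity, ?_, ?_⟩
    · have : 0 ≤ (1 - 2 * δ) / n := div_nonneg (by linarith) hnpos.le
      linarith
    · rw [← add_div, div_le_one hnpos]; linarith
  set z : Fin n → Red := fun i => ⟨(((i : ℝ) + δ) / n, (1 - 2 * δ) / n), hzprop i⟩ with hz
  set μ : Measure Red := ∑ i : Fin n, ((n : ENNReal)⁻¹) • Measure.dirac (z i) with hμ
  have : IsProbabilityMeasure μ := by
    constructor
    rw [hμ, Measure.finsetSum_apply]
    simp only [Measure.smul_apply, measure_univ, smul_eq_mul, mul_one, Finset.sum_const,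
      Finset.card_univ, Fintype.card_fin, nsmul_eq_mul]
    exact ENNReal.mul_inv_cancel (by
      simpa using (Nat.one_le_iff_ne_zero.1 hn)) (ENNReal.natCast_ne_top n)
  obtain ⟨μP, hμP⟩ : ∃ μP : ProbabilityMeasure Red, (μP : Measure Red) = μ :=
    ⟨⟨μ, inferInstance⟩, rfl⟩
  refine ⟨μP, fun ν => ?_⟩
  rw [expPay_eq hβ, hμP]
  -- the covering events are disjoint
  have hdisj : Pairwise (Function.onFun Disjoint fun i : Fin n =>
      {p : Blue | p.1 ∈ Icc (z i).1.1 ((z i).1.1 + (z i).1.2)}) := by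
    intro i j hij
    refine Set.disjoint_left.2 fun p hp hq => ?_
    simp only [hz, mem_ofPred_eq, mem_Icc] at hp hq
    have key : ∀ a b : Fin n, (a : ℕ) < (b : ℕ) →
        p.1 ≤ ((a : ℝ) + δ) / n + (1 - 2 * δ) / n → ((b : ℝ) + δ) / n ≤ p.1 → False := by
      intro a b hab h1 h2
      have h3 : ((a : ℕ) : ℝ) + 1 ≤ (b : ℕ) := by exact_mod_cast hab
      have h4 := h2.trans h1
      rw [← add_div, div_le_div_iff_of_pos_right hnpos] at h4
      linarith
    rcases lt_or_gt_of_ne (fun h => hij (Fin.ext h) : (i : ℕ) ≠ (j : ℕ)) with h | h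
    · exact key i j h hp.2 hq.1
    · exact key j i h hq.2 hp.1
  have hsum : ∑ i : Fin n, (ν : Measure Blue).real
      {p : Blue | p.1 ∈ Icc (z i).1.1 ((z i).1.1 + (z i).1.2)} ≤ 1 := by
    rw [← measureReal_iUnion_fintype hdisj
      (fun i => measurable_subtype_coe measurableSet_Icc)]
    exact measureReal_le_one
  have hint : ∀ i : Fin n, Integrable (fun z : Red => z.1.2 - (1 + β) * z.1.2 *
      (ν : Measure Blue).real {p : Blue | p.1 ∈ Icc z.1.1 (z.1.1 + z.1.2)})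
      (((n : ENNReal)⁻¹) • Measure.dirac (z i)) := by
    intro i
    refine Integrable.smul_measure ?_ (by
      simpa using (Nat.one_le_iff_ne_zero.1 hn))
    have := (integrable_pay hβ ((Measure.dirac (z i)).prod (ν : Measure Blue))).integral_prod_left
    refine this.congr (Filter.Eventually.of_forall fun z => ?_)
    exact inner_eq β z _
  rw [hμ, integral_finsetSum_measure (fun i _ => hint i)]
  have hval : ∀ i : Fin n, ∫ z : Red, (z.1.2 - (1 + β) * z.1.2 *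
      (ν : Measure Blue).real {p : Blue | p.1 ∈ Icc z.1.1 (z.1.1 + z.1.2)})
      ∂(((n : ENNReal)⁻¹) • Measure.dirac (z i))
      = (n : ℝ)⁻¹ * ((1 - 2 * δ) / n - (1 + β) * ((1 - 2 * δ) / n) * (ν : Measure Blue).real
        {p : Blue | p.1 ∈ Icc (z i).1.1 ((z i).1.1 + (z i).1.2)}) := by
    intro i
    rw [integral_smul_measure, integral_dirac]
    simp [hz]
  rw [Finset.sum_congr rfl (fun i _ => hval i), ← Finset.mul_sum, Finset.sum_sub_distrib,
    ← Finset.mul_sum]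
  simp only [Finset.sum_const, Finset.card_univ, Fintype.card_fin, nsmul_eq_mul]
  set s := ∑ i : Fin n, (ν : Measure Blue).real
      {p : Blue | p.1 ∈ Icc (z i).1.1 ((z i).1.1 + (z i).1.2)} with hs
  have hA : 0 ≤ (1 + β) * ((1 - 2 * δ) / n) :=
    mul_nonneg (by linarith) (div_nonneg (by linarith) hnpos.le)
  have h5 : (1 + β) * ((1 - 2 * δ) / n) * s ≤ (1 + β) * ((1 - 2 * δ) / n) * 1 :=
    mul_le_mul_of_nonneg_left hsum hA
  have h6 : (1 - 2 * δ) * (((n : ℝ) - 1 - β) / (n : ℝ) ^ 2)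
      = (n : ℝ)⁻¹ * ((n : ℝ) * ((1 - 2 * δ) / n) - (1 + β) * ((1 - 2 * δ) / n) * 1) := by
    field_simp
    ring
  rw [h6]
  exact mul_le_mul_of_nonneg_left (by linarith) (by positivity)

/-- For every `β ≥ 0` the point-versus-interval game has a value, and the value is
`M(β) = max_{n ≥ 1} (n - 1 - β) / n ^ 2`; moreover BLUE has an optimal strategy and RED has
`ε`-optimal strategies for every `ε > 0`. -/
theorem result (β : ℝ) (hβ : 0 ≤ β) :
    ∃ M : ℝ, IsGreatest {x : ℝ | ∃ n : ℕ, 1 ≤ n ∧ x = ((n : ℝ) - 1 - β) / (n : ℝ) ^ 2} M ∧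
      (lowerValue β = M ∧ upperValue β = M) ∧
      (∃ ν : ProbabilityMeasure Blue, ∀ μ : ProbabilityMeasure Red, expPay β μ ν ≤ M) ∧
      (∀ ε : ℝ, 0 < ε → ∃ μ : ProbabilityMeasure Red, ∀ ν : ProbabilityMeasure Blue,
        M - ε ≤ expPay β μ ν) := by
  obtain ⟨M, hMpos, hM⟩ := exists_max β hβ
  refine ⟨M, hM, ?_⟩
  have hMk : ∀ k : ℕ, (k : ℝ) - M * (k : ℝ) ^ 2 ≤ 1 + β := by
    intro k
    rcases Nat.eq_zero_or_pos k with rfl | hk
    · simp; linarith
    · have hk' : (0 : ℝ) < k := by exact_mod_cast hk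
      have := hM.2 ⟨k, hk, rfl⟩
      rw [div_le_iff₀ (by positivity)] at this
      linarith
  obtain ⟨n, hn, hMn⟩ := hM.1
  obtain ⟨νs, hνs⟩ := blue_guarantee hβ hMpos hMk
  have hred : ∀ δ : ℝ, 0 < δ → δ < 1 / 2 → ∃ μ : ProbabilityMeasure Red,
      ∀ ν : ProbabilityMeasure Blue, (1 - 2 * δ) * M ≤ expPay β μ ν := by
    intro δ h1 h2
    rw [hMn]
    exact red_guarantee hβ hn h1 h2
  obtain ⟨μ0, -⟩ := hred (1 / 4) (by norm_num) (by norm_num)
  have : Nonempty (ProbabilityMeasure Red) := ⟨μ0⟩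
  have : Nonempty (ProbabilityMeasure Blue) := ⟨νs⟩
  have hbb : ∀ μ, BddBelow (range fun ν => expPay β μ ν) := fun μ => ⟨-(1 + β), by
    rintro _ ⟨ν, rfl⟩; exact (abs_le.1 (expPay_bound hβ μ ν)).1⟩
  have hba : ∀ ν, BddAbove (range fun μ => expPay β μ ν) := fun ν => ⟨1 + β, by
    rintro _ ⟨μ, rfl⟩; exact (abs_le.1 (expPay_bound hβ μ ν)).2⟩
  have hba2 : BddAbove (range fun μ => ⨅ ν, expPay β μ ν) := ⟨1 + β, by
    rintro _ ⟨μ, rfl⟩
    exact (ciInf_le (hbb μ) νs).trans (abs_le.1 (expPay_bound hβ μ νs)).2⟩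
  have hbb2 : BddBelow (range fun ν => ⨆ μ, expPay β μ ν) := ⟨-(1 + β), by
    rintro _ ⟨ν, rfl⟩
    exact (abs_le.1 (expPay_bound hβ μ0 ν)).1.trans (le_ciSup (hba ν) μ0)⟩
  -- passing to the limit `δ → 0`
  have hlim : ∀ x : ℝ, (∀ δ : ℝ, 0 < δ → δ < 1 / 2 → (1 - 2 * δ) * M ≤ x) → M ≤ x := by
    intro x hx
    by_contra h
    push Not at h
    have hδ : 0 < min (1 / 4) ((M - x) / (4 * M)) :=
      lt_min (by norm_num) (div_pos (by linarith) (by linarith))
    have h1 := hx _ hδ (lt_of_le_of_lt (min_le_left _ _) (by norm_num))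
    have h2 : min (1 / 4) ((M - x) / (4 * M)) ≤ (M - x) / (4 * M) := min_le_right _ _
    have h3 : (M - x) / (4 * M) * M = (M - x) / 4 := by field_simp
    nlinarith
  have heps : ∀ ε : ℝ, 0 < ε → ∃ μ : ProbabilityMeasure Red, ∀ ν : ProbabilityMeasure Blue,
        M - ε ≤ expPay β μ ν := by
    intro ε hε
    have hδ : 0 < min (1 / 4) (ε / (2 * M)) :=
      lt_min (by norm_num) (div_pos hε (by linarith))
    obtain ⟨μ, hμ⟩ := hred _ hδ (lt_of_le_of_lt (min_le_left _ _) (by norm_num))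
    refine ⟨μ, fun ν => le_trans ?_ (hμ ν)⟩
    have h2 : min (1 / 4) (ε / (2 * M)) ≤ ε / (2 * M) := min_le_right _ _
    have h3 : ε / (2 * M) * M = ε / 2 := by field_simp
    nlinarith
  refine ⟨⟨?_, ?_⟩, ⟨νs, hνs⟩, heps⟩
  · apply le_antisymm
    · exact ciSup_le fun μ => (ciInf_le (hbb μ) νs).trans (hνs μ)
    · refine hlim _ fun δ h1 h2 => ?_
      obtain ⟨μ, hμ⟩ := hred δ h1 h2
      exact (le_ciInf hμ).trans (le_ciSup hba2 μ)
  · apply le_antisymm
    · exact (ciInf_le hbb2 νs).trans (ciSup_le hνs)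
    · refine le_ciInf fun ν => hlim _ fun δ h1 h2 => ?_
      obtain ⟨μ, hμ⟩ := hred δ h1 h2
      exact (hμ ν).trans (le_ciSup (hba ν) μ)

end Pool.Agent.Results.MP_d7d923_pr.ValueFormula
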